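import Pool.Agent.H97.HV.Targets
import Pool.Agent.H45.NF.DW

/-!
# WZF. The sets `Wz`
-/

open Ordinal Cardinal Order Set
open scoped ZFSet

universe u

namespace Pool.Agent.H64.HV

open _root_.HD HD.PRK HD.HV

theorem pf_WZF (h0 : T_PVA.{u}) (h1 : T_PVD.{u}) : T_WZF.{u} := by
  refine ⟨fun γ => ?_, fun γ l => ?_, ?_⟩
  · have hN : DZ fun v : ℕ → ZFSet.{u} => NV γ (v 0) := (h1 γ).2
    refine (DZ.ex (R := fun w v => ((v 0).IsOrdinal ∧ w = V_ (v 0).rank) ∧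
      ∀ z, z ∈ v 1 ↔ z ∈ w ∧ NV γ z) (DZ.and (loc_V 1 0).dz
        (DZ.all (R := fun z v => z ∈ v 2 ↔ z ∈ v 0 ∧ NV γ z)
          ((DZ.mem 0 3).iff ((DZ.mem 0 1).and (hN.ren fun _ => 0)))))).congr fun v => ?_
    constructor
    · rintro ⟨h2, h3⟩
      refine ⟨_, ⟨h2, rfl⟩, fun z => ?_⟩
      rw [h3, Wz, ZFSet.mem_sep]
    · rintro ⟨w, ⟨h2, rfl⟩, h3⟩
      refine ⟨h2, ?_⟩
      ext z
      rw [h3, Wz, ZFSet.mem_sep]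
  · exact Pool.Agent.H45.NF.od_sep (HD.NF.od_V l) (h1 γ).2
  · intro γ ξ x hx z hz
    rw [Wz, ZFSet.mem_sep]
    have h2 : NV (min γ ξ) z := ZFSet.Hereditarily.mem hx.1 hz
    exact ⟨hx.2 hz, (h0.2.2.2.1 (min γ ξ) γ z (min_le_left _ _)).2 h2⟩

end Pool.Agent.H64.HV
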